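import Pool.Agent.N474.AS.Dens

set_option autoImplicit false

/-!
# The star discrepancy after almost every digital shift of one coordinate

Only ONE coordinate is shifted, and the point set or sequence is arbitrary. Let `D = d + 1 ≥ 2`.

* Point sets in dimension `D` (arbitrary real weights): for all but a proportion `(1 - q)^R` of the
  binary digital shifts of one coordinate the star discrepancy is at least
  `c (log N)^(D/2) / (R N)`, for every `R ≥ 1`.
* Sequences in dimension `D`: for almost every real number `u`, after the shift of one coordinate by all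
  the binary digits of `u`, the star discrepancy of the first `n` terms is at least
  `c (log n)^((D+1)/2) / n` for a set of `n` of positive upper density, and at least
  `c (log n)^((D+1)/2) / (n log log n)` for all `n` outside of a set of density zero.
-/

namespace Pool.Agent.Results.MP_173de9_an.AlmostEveryDigitalShift

open Finset MeasureTheory Filter

/-- The local discrepancy `∏ x_j - Σ_μ w_μ χ_{[0,x]}(ξ^μ)` of the points `ξ` with weights `w`. -/
noncomputable def localDisc {N D : ℕ} (w : Fin N → ℝ) (ξ : Fin N → Fin D → ℝ) (x : Fin D → ℝ) : ℝ :=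
  ∏ j, x j - ∑ μ : Fin N, (Set.Icc (0 : Fin D → ℝ) x).indicator (fun _ => w μ) (ξ μ)

/-- The star discrepancy: the `L_∞` norm of the local discrepancy over `[0,1]^D`. -/
noncomputable def starDisc {N D : ℕ} (w : Fin N → ℝ) (ξ : Fin N → Fin D → ℝ) : ENNReal :=
  eLpNorm (localDisc w ξ) ⊤ (volume.restrict (Set.Icc (0 : Fin D → ℝ) 1))

/-- Digital shift with `m` digits: the first `m` binary digits of `a ∈ [0,1)` are added modulo 2 to the
binary digits of the integer `σ < 2^m`; the later digits are kept. -/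
noncomputable def digitalShift (m σ : ℕ) (a : ℝ) : ℝ :=
  (((⌊2 ^ m * a⌋₊ ^^^ σ : ℕ) : ℝ) + Int.fract (2 ^ m * a)) / 2 ^ m

/-- Digital shift with infinitely many digits: the digital sum of `a` and `u`. The `(k+1)`-st binary
digit of `a ∈ [0,1)` is `⌊2^(k+1) a⌋ mod 2`; the digits of `a` and `u` are added modulo 2. -/
noncomputable def xorShift (u a : ℝ) : ℝ :=
  ∑' k : ℕ, (((⌊2 ^ (k + 1) * a⌋₊ + ⌊2 ^ (k + 1) * u⌋₊) % 2 : ℕ) : ℝ) / 2 ^ (k + 1)

/-- The star discrepancy of the first `n` terms of the sequence `x` after the digital shift of their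
`i`-th coordinates by the digits of `u`. -/
noncomputable def shiftedStar {D : ℕ} (i : Fin D) (u : ℝ) (x : ℕ → Fin D → ℝ) (n : ℕ) : ENNReal :=
  starDisc (fun _ : Fin n => 1 / n) (fun μ : Fin n => Function.update (x μ) i (xorShift u (x μ i)))

open Classical in
theorem result (d : ℕ) (hd : 1 ≤ d) :
    -- (1) point sets in dimension `d + 1`, arbitrary weights: the lower tail
    (∃ c q : ℝ, 0 < c ∧ 0 < q ∧ q < 1 ∧ ∀ N : ℕ, 2 ≤ N →
      ∀ (w : Fin N → ℝ) (ξ : Fin N → Fin (d + 1) → ℝ) (i : Fin (d + 1)),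
        (∀ μ, ξ μ ∈ Set.Icc (0 : Fin (d + 1) → ℝ) 1) → (∀ μ, ξ μ i < 1) →
        ∀ m R : ℕ, 1 ≤ R →
          (((range (2 ^ m)).filter (fun σ =>
            starDisc w (fun μ => Function.update (ξ μ) i (digitalShift m σ (ξ μ i))) <
              ENNReal.ofReal (c * (min (m : ℝ) (Real.log N) * Real.log N ^ (((d : ℝ) - 1) / 2)) /
                (R * N)))).card : ℝ) ≤ (1 - q) ^ R * 2 ^ m) ∧
    -- (2) sequences in dimension `d + 1`, almost every shift: positive upper density
    (∃ c : ℝ, 0 < c ∧ ∀ (x : ℕ → Fin (d + 1) → ℝ), (∀ n j, 0 ≤ x n j ∧ x n j < 1) →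
      ∀ i : Fin (d + 1), ∀ᵐ u ∂(volume.restrict (Set.Ico (0 : ℝ) 1)), ∃ᶠ N : ℕ in atTop,
        c * N ≤ (((Finset.Icc 1 N).filter (fun n : ℕ =>
          ENNReal.ofReal (c * Real.log N ^ (((d : ℝ) + 2) / 2) / n) ≤
            shiftedStar i u x n)).card : ℝ)) ∧
    -- (3) sequences in dimension `d + 1`, almost every shift: density one
    (∀ A : ℕ, ∃ c : ℝ, 0 < c ∧ ∀ (x : ℕ → Fin (d + 1) → ℝ), (∀ n j, 0 ≤ x n j ∧ x n j < 1) →
      ∀ i : Fin (d + 1), ∀ᵐ u ∂(volume.restrict (Set.Ico (0 : ℝ) 1)), ∀ᶠ N : ℕ in atTop,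
        (((Finset.Icc 1 N).filter (fun n : ℕ => shiftedStar i u x n <
          ENNReal.ofReal (c * Real.log N ^ (((d : ℝ) + 2) / 2) / Real.log (Real.log N) / n))).card
            : ℝ) ≤ N / Real.log N ^ A) := by
  obtain ⟨ε, c0, hε, hε1, hc0, H⟩ := Pool.Agent.N474.AS.exists_hmeas d hd
  refine ⟨?_, ?_, ?_⟩
  · refine ⟨ε ^ 2 * c0 * (1 / 2) ^ (((d : ℝ) - 1) / 2) / 16384, ε / 32, by positivity,
      by positivity, by linarith, ?_⟩
    intro N hN w ξ i hξ hξ1 m R hR
    exact Pool.Agent.N474.AS.finite_tail hd hε hε1 hc0 H hN w ξ i hξ hξ1 m R hR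
  · obtain ⟨c, hc, h⟩ := Pool.Agent.N474.AS.ae_upper_density d hd
    refine ⟨c, hc, fun x hx i => ?_⟩
    rw [ae_restrict_iff' measurableSet_Ico]
    filter_upwards [h x (fun n j => (hx n j).1) i (fun n => (hx n i).2)] with u hu hu01
    exact hu ⟨hu01.1, hu01.2⟩
  · intro A
    obtain ⟨c, hc, h⟩ := Pool.Agent.N474.AS.ae_most d hd A
    refine ⟨c, hc, fun x hx i => ?_⟩
    rw [ae_restrict_iff' measurableSet_Ico]
    filter_upwards [h x (fun n j => (hx n j).1) i (fun n => (hx n i).2)] with u hu hu01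
    exact hu ⟨hu01.1, hu01.2⟩

end Pool.Agent.Results.MP_173de9_an.AlmostEveryDigitalShift
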