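import Pool.Agent.N628.EB.Ebox

/-!
# Large exponents inside every small box

The lower bound for the local discrepancy which grows with the exponent holds inside every box `Q`
with the logarithm of `M |Q|` in the place of the logarithm of `M`, uniformly in `Q` down to the
boxes with `M |Q| = 9 ^ d` and uniformly in `1 ≤ p ≤ ∞`, and it is not changed by adding sums of
functions of `d - 1` of the variables.
-/

set_option autoImplicit false

namespace Pool.Agent.Results.MP_173de9_an.EveryBoxLargeExponents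

open MeasureTheory

/-- The local discrepancy `∏ x_j - Σ_μ λ_μ χ_{[0,x]}(ξ^μ)` of the points `ξ` with the weights `λ`. -/
noncomputable def localDisc {N d : ℕ} (lam : Fin N → ℝ) (ξ : Fin N → Fin d → ℝ) (x : Fin d → ℝ) : ℝ :=
  ∏ j, x j - ∑ μ : Fin N, lam μ * (Set.Icc (0 : Fin d → ℝ) x).indicator (fun _ => (1:ℝ)) (ξ μ)

/-- `g` is a sum of `d` measurable functions, the `k`-th of which does not depend on `x_k`. -/
def FewerVars {d : ℕ} (g : (Fin d → ℝ) → ℝ) : Prop :=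
  ∃ h : Fin d → (Fin d → ℝ) → ℝ, (∀ k, Measurable (h k)) ∧
    (∀ (k : Fin d) (x : Fin d → ℝ) (t : ℝ), h k (Function.update x k t) = h k x) ∧
    g = fun x => ∑ k, h k x

/-- The `L_p` mean of `f` over the set `Q`: the `L_p` norm with respect to the Lebesgue measure on `Q`
divided by its total mass `|Q|`. -/
noncomputable def meanOn {d : ℕ} (p : ENNReal) (Q : Set (Fin d → ℝ)) (f : (Fin d → ℝ) → ℝ) : ENNReal :=
  eLpNorm f p ((volume Q)⁻¹ • volume.restrict Q)

/-- The growth factor: the smaller one of `√p` and `(ln V)^(1/(2d)) / (ln ln V)^(1/2)`. -/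
noncomputable def growth (d : ℕ) (p : ENNReal) (V : ℝ) : ENNReal :=
  min (p ^ (1 / 2 : ℝ)) (ENNReal.ofReal
    ((Real.log V) ^ (1 / (2 * (d : ℝ))) / (Real.log (Real.log V)) ^ (1 / 2 : ℝ)))

theorem D_eq {N d : ℕ} (lam : Fin N → ℝ) (ξ : Fin N → Fin d → ℝ)
    (hξ : ∀ μ, ξ μ ∈ Set.Icc (0 : Fin d → ℝ) 1) (h : Fin d → (Fin d → ℝ) → ℝ) :
    N628.EB.D lam ξ h = fun x => localDisc lam ξ x - ∑ k, h k x := by
  funext x
  unfold localDisc N628.EB.D
  have : ∀ μ, (Set.Icc (0 : Fin d → ℝ) x).indicator (fun _ => (1:ℝ)) (ξ μ) =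
      (if ∀ i, ξ μ i ≤ x i then (1 : ℝ) else 0) := by
    intro μ
    have hiff : ξ μ ∈ Set.Icc (0 : Fin d → ℝ) x ↔ ∀ i, ξ μ i ≤ x i :=
      ⟨fun h i => h.2 i, fun h => ⟨(hξ μ).1, h⟩⟩
    by_cases hx : ∀ i, ξ μ i ≤ x i
    · rw [if_pos hx, Set.indicator_of_mem (hiff.2 hx)]
    · rw [if_neg hx, Set.indicator_of_notMem (fun h => hx (hiff.1 h))]
  simp only [this]

/-- **Large exponents inside every small box**, in every dimension `d ≥ 3`.
(1) There is `c > 0` such that for every real `M > 0`, every number `N` of points of `[0,1]^d`, every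
box `Q = [a,b]` with `V = M |Q| ≥ 9 ^ d`, every sum `g` of functions of fewer variables and every
`1 ≤ p ≤ ∞` the `L_p` mean over `Q` of the local discrepancy of the points with all weights `1 / M`,
minus `g`, is at least `c (ln V)^((d-1)/2) / M` times the smaller one of `√p` and
`(ln V)^(1/(2d)) / (ln ln V)^(1/2)`.
(2) For every `K` there is `c > 0` such that the same holds for arbitrary real weights and for every
box `Q` with `V = M |Q| ≥ 3` which contains at most `K V` of the points. -/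
theorem result (d : ℕ) (hd : 3 ≤ d) :
    (∃ c : ℝ, 0 < c ∧ ∀ M : ℝ, 0 < M → ∀ N : ℕ,
      ∀ ξ : Fin N → Fin d → ℝ, (∀ μ, ξ μ ∈ Set.Icc (0 : Fin d → ℝ) 1) →
      ∀ a b : Fin d → ℝ, (∀ i, a i < b i) → (9 : ℝ) ^ d ≤ M * ∏ i, (b i - a i) →
      ∀ g : (Fin d → ℝ) → ℝ, FewerVars g → ∀ p : ENNReal, 1 ≤ p →
        ENNReal.ofReal (c * (Real.log (M * ∏ i, (b i - a i))) ^ (((d : ℝ) - 1) / 2) / M) *
            growth d p (M * ∏ i, (b i - a i)) ≤
          meanOn p (Set.Icc a b) (fun x => localDisc (fun _ => 1 / M) ξ x - g x)) ∧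
    (∀ K : ℝ, ∃ c : ℝ, 0 < c ∧ ∀ M : ℝ, 0 < M → ∀ N : ℕ,
      ∀ (lam : Fin N → ℝ) (ξ : Fin N → Fin d → ℝ), (∀ μ, ξ μ ∈ Set.Icc (0 : Fin d → ℝ) 1) →
      ∀ a b : Fin d → ℝ, (∀ i, a i < b i) → 3 ≤ M * ∏ i, (b i - a i) →
        (Nat.card {μ : Fin N // ∀ i, a i < ξ μ i ∧ ξ μ i ≤ b i} : ℝ) ≤
          K * (M * ∏ i, (b i - a i)) →
      ∀ g : (Fin d → ℝ) → ℝ, FewerVars g → ∀ p : ENNReal, 1 ≤ p →
        ENNReal.ofReal (c * (Real.log (M * ∏ i, (b i - a i))) ^ (((d : ℝ) - 1) / 2) / M) *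
            growth d p (M * ∏ i, (b i - a i)) ≤
          meanOn p (Set.Icc a b) (fun x => localDisc lam ξ x - g x)) := by
  refine ⟨?_, fun K => ?_⟩
  · obtain ⟨c, hc, H⟩ := N628.EB.ebox d hd
    refine ⟨c, hc, fun M hM N ξ hξ a b hab hV g hg p hp => ?_⟩
    obtain ⟨h, h1, h2, rfl⟩ := hg
    have h3 := H M hM N ξ a b hab hV h h1 h2 p hp
    rw [D_eq _ ξ hξ h] at h3
    exact h3
  · obtain ⟨c, hc, H⟩ := N628.EB.wbox d hd K
    refine ⟨c, hc, fun M hM N lam ξ hξ a b hab hV hcard g hg p hp => ?_⟩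
    obtain ⟨h, h1, h2, rfl⟩ := hg
    have h3 := H M hM N lam ξ a b hab hV hcard h h1 h2 p hp
    rw [D_eq _ ξ hξ h] at h3
    exact h3

end Pool.Agent.Results.MP_173de9_an.EveryBoxLargeExponents
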