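import Pool.Agent.N261.LP.F5
import Pool.Agent.N261.LP.PA
import Pool.Agent.N261.LP.PB
import Pool.Agent.N261.LP.PC
import Pool.Agent.N261.LP.PC4
import Pool.Agent.N261.LP.PD
import Pool.Agent.N261.LP.PM
import Pool.Agent.N261.LP.PM3
import Pool.Agent.N261.LP.PM4
import Pool.Agent.N261.LP.PM5
import Pool.Agent.N261.LP.PW
import Pool.Agent.N261.LP.PX
import Pool.Agent.Results.MP_173de9_an.LargeExponents

/-!
# The optimal `L_p` star discrepancy for slowly growing exponents `p`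

The page asks for the order of `D(m,d)_∞` (and of `D(m,d)_1`).  The `L_p` star discrepancy
interpolates between the known case of a fixed exponent `p`, where the order is
`(ln m)^((d-1)/2) / m`, and the case `p = ∞`.  Here the order is determined, with constants
depending only on `d` and `κ`, uniformly in the exponents `1 ≤ p ≤ (ln m)^κ` for every
`κ < 1 / (2 d + 1)`: it is `√p (ln m)^((d-1)/2) / m`.

The lower bound (for arbitrary real weights) follows from the earlier result `LargeExponents`.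
The upper bound is obtained from a digital `(0, n, d)`-net in a prime base whose digits are reversed
(`a ↦ b - 1 - a`) at random, independently for each coordinate and each position of the digit: the
local discrepancy at a corner is a polynomial in the random signs.  Khintchine's inequality is used
in the signs of one coordinate and the square function is shown to be concentrated.  For every `m`
one and the same set of `m` points works for all the exponents `1 ≤ p ≤ (ln m)^κ`.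
-/

set_option autoImplicit false

namespace Pool.Agent.Results.MP_173de9_an.SharpGrowingExponents

open MeasureTheory

/-- The local discrepancy `∏ x_j - Σ_μ λ_μ χ_{[0,x]}(ξ^μ)` of the points `ξ` with the weights `λ`. -/
noncomputable def localDisc {m d : ℕ} (lam : Fin m → ℝ) (ξ : Fin m → Fin d → ℝ) (x : Fin d → ℝ) : ℝ :=
  ∏ j, x j - ∑ μ : Fin m, lam μ * (Set.Icc (0 : Fin d → ℝ) x).indicator (fun _ => (1:ℝ)) (ξ μ)

/-- The `L_p` norm of the weighted local discrepancy over `[0,1]^d`. -/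
noncomputable def starDisc (p : ENNReal) {m d : ℕ} (lam : Fin m → ℝ) (ξ : Fin m → Fin d → ℝ) :
    ENNReal :=
  eLpNorm (localDisc lam ξ) p (volume.restrict (Set.Icc (0 : Fin d → ℝ) 1))

/-- `D(m,d)_p`: the infimum over all `m`-point sets (repetitions allowed) in `[0,1]^d`, all weights
equal to `1 / m`. -/
noncomputable def optDisc (p : ENNReal) (m d : ℕ) : ENNReal :=
  ⨅ (ξ : Fin m → Fin d → ℝ) (_ : ∀ μ, ξ μ ∈ Set.Icc (0 : Fin d → ℝ) 1),
    starDisc p (fun _ => 1 / (m:ℝ)) ξ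

/-- The infimum over all `m`-point sets in `[0,1]^d` and all real weights. -/
noncomputable def optWeighted (p : ENNReal) (m d : ℕ) : ENNReal :=
  ⨅ (lam : Fin m → ℝ) (ξ : Fin m → Fin d → ℝ) (_ : ∀ μ, ξ μ ∈ Set.Icc (0 : Fin d → ℝ) 1),
    starDisc p lam ξ

theorem localDisc_eq {m d : ℕ} (ξ : Fin m → Fin d → ℝ) :
    localDisc (fun _ => 1 / (m : ℝ)) ξ = H730R2.LU.ld ξ := by
  funext x
  unfold localDisc H730R2.LU.ld
  rw [← Finset.mul_sum]

/-- Let `d ≥ 3` and `0 < κ < 1 / (2 d + 1)`.  There are constants `c, C > 0` such that for every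
`m ≥ 3` and every real exponent `1 ≤ p ≤ (ln m)^κ`
`c √p (ln m)^((d-1)/2) / m ≤ D_w(m,d)_p ≤ D(m,d)_p ≤ C √p (ln m)^((d-1)/2) / m`,
where `D(m,d)_p` is the optimal `L_p` star discrepancy of `m` points and `D_w(m,d)_p` the one with
arbitrary real weights.  Moreover for every `m ≥ 3` there is one set of `m` points whose `L_p` star
discrepancies are at most `C √p (ln m)^((d-1)/2) / m` for all these `p` simultaneously. -/
theorem result (d : ℕ) (hd : 3 ≤ d) (κ : ℝ) (hκ0 : 0 < κ) (hκ1 : κ < 1 / (2 * (d : ℝ) + 1)) :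
    ∃ c C : ℝ, 0 < c ∧ 0 < C ∧ ∀ m : ℕ, 3 ≤ m →
      (∀ p : ℝ, 1 ≤ p → p ≤ (Real.log m) ^ κ →
        ENNReal.ofReal (c * Real.sqrt p * (Real.log m) ^ (((d : ℝ) - 1) / 2) / m) ≤
          optWeighted (ENNReal.ofReal p) m d ∧
        optWeighted (ENNReal.ofReal p) m d ≤ optDisc (ENNReal.ofReal p) m d ∧
        optDisc (ENNReal.ofReal p) m d ≤
          ENNReal.ofReal (C * Real.sqrt p * (Real.log m) ^ (((d : ℝ) - 1) / 2) / m)) ∧
      ∃ ξ : Fin m → Fin d → ℝ, (∀ μ, ξ μ ∈ Set.Icc (0 : Fin d → ℝ) 1) ∧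
        ∀ p : ℝ, 1 ≤ p → p ≤ (Real.log m) ^ κ →
          starDisc (ENNReal.ofReal p) (fun _ => 1 / (m : ℝ)) ξ ≤
            ENNReal.ofReal (C * Real.sqrt p * (Real.log m) ^ (((d : ℝ) - 1) / 2) / m) := by
  have hC1 := N261.LP.t_C1
  have hC2 := N261.LP.t_C2
  obtain ⟨k, rfl⟩ : ∃ k, d = k + 1 := ⟨d - 1, by omega⟩
  have hd3 : (3 : ℝ) ≤ ((k + 1 : ℕ) : ℝ) := by exact_mod_cast hd
  have hκ2 : κ * (2 * (k : ℝ) + 3) < 1 := by
    have h : (0 : ℝ) < 2 * ((k + 1 : ℕ) : ℝ) + 1 := by linarith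
    rw [lt_div_iff₀ h] at hκ1
    push_cast at hκ1
    linarith
  obtain ⟨C, hC, hU⟩ := N261.LP.upper (N261.LP.t_B N261.LP.t_A) hC1 hC2 (N261.LP.t_C4 hC1 hC2)
    N261.LP.t_M1 N261.LP.t_M2 N261.LP.t_M3 (N261.LP.t_M5 N261.LP.t_M4) N261.LP.t_W (N261.LP.t_D hC2) N261.LP.t_X
    N261.LP.t_P k (by omega) κ hκ0 hκ2
  obtain ⟨c, hc, hLow⟩ := LargeExponents.result (k + 1) hd
  set D : ℝ := Real.sqrt (2 * ((k + 1 : ℕ) : ℝ)) + 1 with hD
  have hD0 : 0 < D := by positivity
  have hkd : (((k + 1 : ℕ) : ℝ) - 1) / 2 = (k : ℝ) / 2 := by push_cast; ring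
  refine ⟨c / D, C, by positivity, hC, fun m hm => ?_⟩
  have hm3 : (3 : ℝ) ≤ m := by exact_mod_cast hm
  have hm0 : (0 : ℝ) < m := by linarith
  obtain ⟨ξ, hξ, hξp⟩ := hU m (by omega)
  have hup : ∀ p : ℝ, 1 ≤ p → p ≤ (Real.log m) ^ κ →
      starDisc (ENNReal.ofReal p) (fun _ => 1 / (m : ℝ)) ξ ≤
        ENNReal.ofReal (C * Real.sqrt p * (Real.log m) ^ ((((k + 1 : ℕ) : ℝ) - 1) / 2) / m) := by
    intro p hp1 hp2
    unfold starDisc
    rw [localDisc_eq, hkd]
    exact hξp p hp1 hp2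
  refine ⟨fun p hp1 hp2 => ?_, ξ, hξ, hup⟩
  obtain ⟨h1, h2⟩ := hLow m hm (ENNReal.ofReal p) (by
    rw [← ENNReal.ofReal_one]; exact ENNReal.ofReal_le_ofReal hp1)
  refine ⟨?_, h2, (iInf₂_le ξ hξ).trans (hup p hp1 hp2)⟩
  refine le_trans ?_ h1
  -- logarithms
  have hL1 : 1 < Real.log m := by
    rw [Real.lt_log_iff_exp_lt hm0]
    exact lt_of_lt_of_le Real.exp_one_lt_three hm3
  have hL0 : 0 < Real.log m := by linarith
  have hLL : 0 < Real.log (Real.log m) := Real.log_pos hL1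
  have hk0 : (0 : ℝ) < ((k + 1 : ℕ) : ℝ) := by linarith
  have hR : Real.sqrt p ≤ D * ((Real.log m) ^ (1 / (2 * ((k + 1 : ℕ) : ℝ))) /
      (Real.log (Real.log m)) ^ (1 / 2 : ℝ)) := by
    have e1 : Real.sqrt p ≤ (Real.log m) ^ (κ / 2) := by
      rw [Real.sqrt_eq_rpow]
      refine (Real.rpow_le_rpow (by linarith) hp2 (by norm_num)).trans (le_of_eq ?_)
      rw [← Real.rpow_mul hL0.le]
      congr 1; ring
    have e2 : (Real.log m) ^ (κ / 2) ≤ (Real.log m) ^ (1 / (4 * ((k + 1 : ℕ) : ℝ))) := by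
      apply Real.rpow_le_rpow_of_exponent_le hL1.le
      have : κ < 1 / (2 * ((k + 1 : ℕ) : ℝ)) := by
        refine hκ1.trans_le ?_
        apply one_div_le_one_div_of_le (by positivity)
        linarith
      have e : 1 / (4 * ((k + 1 : ℕ) : ℝ)) = 1 / (2 * ((k + 1 : ℕ) : ℝ)) / 2 := by
        field_simp; norm_num
      rw [e]; linarith
    have e3 : Real.log (Real.log m) ≤
        (2 * ((k + 1 : ℕ) : ℝ)) * (Real.log m) ^ (1 / (2 * ((k + 1 : ℕ) : ℝ))) := by
      have := Real.log_le_rpow_div hL0.le (by positivity : 0 < 1 / (2 * ((k + 1 : ℕ) : ℝ)))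
      refine this.trans (le_of_eq ?_)
      field_simp
    have e4 : (Real.log (Real.log m)) ^ (1 / 2 : ℝ) ≤
        D * (Real.log m) ^ (1 / (4 * ((k + 1 : ℕ) : ℝ))) := by
      refine (Real.rpow_le_rpow hLL.le e3 (by norm_num)).trans ?_
      rw [Real.mul_rpow (by positivity) (by positivity), ← Real.rpow_mul hL0.le,
        ← Real.sqrt_eq_rpow]
      have e : 1 / (2 * ((k + 1 : ℕ) : ℝ)) * (1 / 2) = 1 / (4 * ((k + 1 : ℕ) : ℝ)) := by
        field_simp; norm_num
      rw [e]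
      apply mul_le_mul_of_nonneg_right _ (by positivity)
      rw [hD]; linarith
    rw [← mul_div_assoc, le_div_iff₀ (by positivity)]
    calc Real.sqrt p * (Real.log (Real.log m)) ^ (1 / 2 : ℝ)
        ≤ (Real.log m) ^ (1 / (4 * ((k + 1 : ℕ) : ℝ))) *
          (D * (Real.log m) ^ (1 / (4 * ((k + 1 : ℕ) : ℝ)))) := by
          gcongr
          exact e1.trans e2
      _ = D * ((Real.log m) ^ (1 / (4 * ((k + 1 : ℕ) : ℝ))) *
          (Real.log m) ^ (1 / (4 * ((k + 1 : ℕ) : ℝ)))) := by ring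
      _ = D * (Real.log m) ^ (1 / (2 * ((k + 1 : ℕ) : ℝ))) := by
          rw [← Real.rpow_add hL0]
          congr 2
          field_simp; norm_num
  have hmin : ENNReal.ofReal (Real.sqrt p / D) ≤ min ((ENNReal.ofReal p) ^ (1 / 2 : ℝ))
      (ENNReal.ofReal ((Real.log m) ^ (1 / (2 * ((k + 1 : ℕ) : ℝ))) /
        (Real.log (Real.log m)) ^ (1 / 2 : ℝ))) := by
    refine le_min ?_ (ENNReal.ofReal_le_ofReal ?_)
    · rw [ENNReal.ofReal_rpow_of_nonneg (by linarith) (by norm_num), ← Real.sqrt_eq_rpow]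
      apply ENNReal.ofReal_le_ofReal
      apply div_le_self (Real.sqrt_nonneg _)
      have := Real.sqrt_nonneg (2 * ((k + 1 : ℕ) : ℝ))
      rw [hD]; linarith
    · rw [div_le_iff₀' hD0]
      exact hR
  calc ENNReal.ofReal (c / D * Real.sqrt p * (Real.log m) ^ ((((k + 1 : ℕ) : ℝ) - 1) / 2) / m)
      = ENNReal.ofReal (c * (Real.log m) ^ ((((k + 1 : ℕ) : ℝ) - 1) / 2) / m) *
        ENNReal.ofReal (Real.sqrt p / D) := by
        rw [← ENNReal.ofReal_mul (by positivity)]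
        congr 1; ring
    _ ≤ _ := by gcongr

end Pool.Agent.Results.MP_173de9_an.SharpGrowingExponents
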